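import Pool.Agent.H9.Dirac

set_option autoImplicit false

namespace Pool.Agent.Results.MP_93b7f4_co.Counter

open Pool.Agent.H9.Dirac

theorem result : ∃ (k h n₁ n₂ m : ℕ) (G₁ : SimpleGraph (Fin n₁)) (G₂ : SimpleGraph (Fin n₂))
    (a₁ : Fin h ↪ Fin n₁) (a₂ : Fin h ↪ Fin n₂) (i₀ : Fin h) (y₁ : Fin n₁) (y₂ : Fin n₂)
    (ι₁ : Fin n₁ ↪ Fin m) (ι₂ : Fin n₂ ↪ Fin m),
    4 ≤ k ∧ 1 ≤ h ∧ h + 2 ≤ k ∧ IsCritical G₁ k ∧ IsCritical G₂ k ∧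
    (∀ i j, i ≠ j → G₁.Adj (a₁ i) (a₁ j)) ∧ (∀ i j, i ≠ j → G₂.Adj (a₂ i) (a₂ j)) ∧
    (∀ i, a₁ i ≠ y₁) ∧ (∀ i, a₂ i ≠ y₂) ∧ G₁.Adj (a₁ i₀) y₁ ∧ G₂.Adj (a₂ i₀) y₂ ∧
    (∀ w, (∃ u, ι₁ u = w) ∨ (∃ v, ι₂ v = w)) ∧
    (∀ u v, ι₁ u = ι₂ v ↔ ∃ i, u = a₁ i ∧ v = a₂ i) ∧
    ¬ IsCritical (diracGraph G₁ G₂ ι₁ ι₂ (a₁ i₀) y₁ (a₂ i₀) y₂) k :=
  ⟨5, 3, 10, 10, 17, G1, G1, aa, aa, 0, 3, 3, i1, i2, by norm_num, by norm_num, by norm_num,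
    crit1, crit1, by decide +kernel, by decide +kernel, by decide +kernel, by decide +kernel,
    by decide +kernel, by decide +kernel, by decide +kernel, by decide +kernel, not_crit⟩

end Pool.Agent.Results.MP_93b7f4_co.Counter
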